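import Mathlib
import Pool.Agent.Lib.MP_7c08ba_nt.BK.CanLT
import Pool.Agent.Lib.MP_7c08ba_nt.BK.CanEx
import Pool.Agent.Lib.MP_7c08ba_nt.BK.CanSel
import Pool.Agent.Lib.MP_7c08ba_nt.CD.Zero
import Pool.Agent.Lib.MP_7c08ba_nt.R1.All

set_option autoImplicit false

/-!
The conjecture of Bloch and Kato in rank zero and one for quadratic twists of all odd powers of the
canonical Hecke characters of `ℚ(√-q)`, `q` a prime with `q ≡ 7 (mod 16)`, and the Selmer groups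
of all their quadratic twists.
-/

namespace Pool.Agent.Results.MP_7c08ba_nt.CanonicalCharacters

open BKS

theorem result :
    (∀ (q : ℕ) (F : Type) [Field F] [NumberField F], q.Prime → q % 16 = 7 → IsQuad F q →
      ∀ φ : Hec F q, (∀ r : ℕ, r.Prime → (r : ℤ) ∣ φ.D → r % 4 = 1) → φ.D.natAbs % 8 = 1 →
        bnd φ.D = 0 ∧ (rootNo φ = 1 → CentralNZ φ) ∧ (rootNo φ = -1 → CentralZero φ) ∧
        ∃ (δ : ℝ) (K₀ : ℕ), 0 < δ ∧ 2 ≤ K₀ ∧ ∀ K : ℕ, K₀ ≤ K →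
          δ * K / Real.log K ^ 3 ≤ ({k : ℕ | k ≤ K ∧ ∃ h : 1 ≤ k,
            rootNo ({ φ with k := k, pos := h } : Hec F q) = -1 ∧
            CentralSimple ({ φ with k := k, pos := h } : Hec F q)}.ncard : ℝ)) ∧
    (∀ (q : ℕ) (F : Type) [Field F] [NumberField F], q.Prime → q % 16 = 7 → IsQuad F q →
      ∀ φ : Hec F q, bnd φ.D = 0 → ∀ ι : ℂ →+* PadicAlgCl 2, ResOne ι φ.ψ →
        ∀ (L : Type) [NormedField L] [NormedAlgebra ℚ_[2] L] [FiniteDimensional ℚ_[2] L]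
          [NormedAlgebra L (PadicAlgCl 2)] (V : GRep F L 1), IsRealHec ι φ V →
          (rootNo φ = 1 → SelDim 2 V 0) ∧ (rootNo φ = -1 → SelDim 2 V 1)) ∧
    StEx ∧ StSel := by
  refine ⟨fun q F _ _ hq h16 hF φ hr4 h8 => ⟨CanT.bnd_eq hr4 h8 φ.sqf,
    fun hW => stLT' q F hq h16 hF φ hW hr4 h8, fun hW => stZero q F hq h16 hF φ hr4 h8 hW,
    stDer' q F hq h16 hF φ hr4 h8⟩, fun q F _ _ hq h16 hF φ hb ι hι L _ _ _ _ V hV =>
    ⟨fun hW => ?_, fun hW => BKR.stOne' q F hq h16 hF φ ι hι hW hb L V hV⟩, stEx, stSel⟩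
  obtain ⟨h1, h2⟩ := stSel q F hq h16 hF φ ι hι L V hV
  refine ⟨h1, Nat.le_zero.1 (h2 0 hb.le ?_)⟩
  rw [hW, pow_zero]

end Pool.Agent.Results.MP_7c08ba_nt.CanonicalCharacters
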