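import Mathlib
import Pool.Agent.Lib.MP_7c08ba_nt.BK.CVTr

set_option autoImplicit false

/-!
The conjecture of Bloch and Kato for `π = BC_F(f) ⊗ ψ`, `F` an imaginary quadratic field, `f` an
eigenform of level one, `ψ` an unramified Hecke character of `F` trivial modulo `p`: central
values and Selmer groups. For `p = 2` the fields are the rigid fields in which `2` splits: they
are `ℚ(√-q)`, `q` a prime congruent to `7` modulo `16`, and `ℚ(√-(q l))`, `q` and `l` primes
congruent to `3` and `5` modulo `8`; for `p = 3` they are the rigid fields in which `3` splits, at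
least one half of all imaginary quadratic fields in which `3` splits.
-/

namespace Pool.Agent.Results.MP_7c08ba_nt.CentralValues

open BKS

theorem result :
    (∀ (p D : ℕ) [Fact p.Prime], Fam p D → Central p D) ∧
    ∀ ε : ℝ, 0 < ε → ∃ X₀ : ℕ, ∀ X : ℕ, X₀ ≤ X →
      (1 / 2 - ε) * ({D : ℕ | D ≤ X ∧ IsFund D ∧ D % 3 = 2}.ncard : ℝ) ≤
        ({D : ℕ | D ≤ X ∧ Fam 3 D}.ncard : ℝ) :=
  ⟨CV.central_fam, CV.density⟩

end Pool.Agent.Results.MP_7c08ba_nt.CentralValues
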