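import Pool.Agent.Lib.MP_7c08ba_nt.T1.AllZ
import Pool.Agent.Lib.MP_7c08ba_nt.T1.RZER

set_option autoImplicit false

/-!
# Parity for residually hyperbolic representations, and for congruent representations

The statement `ParityA` is in `BK/ClsA.lean`. The definitions of the Selmer group `H¹_f(F, V)` and of
`D_dR(V) / Fil⁰` are in `BK/Sel.lean`, with the period rings in `BK/Per.lean`; those of the classes
of representations, of the local terms and of the residual conditions are in `BK/Cls.lean`,
`BK/ClsT.lean`, `BK/ClsU.lean`, `BK/ClsV.lean`, `BK/ClsY.lean` and `BK/ClsZ.lean`.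
-/

noncomputable section

namespace Pool.Agent.Results.MP_7c08ba_nt.ParityResidual

open NumberField BKS

/-- **Parity.** -/
theorem result :
    ∀ (p : ℕ) [Fact p.Prime] (F : Type) [Field F] [NumberField F], p ≠ 2 →
      Module.finrank ℚ F = 2 → IsEmpty (F →+* ℝ) → Split p F → ParityA p F :=
  fun p _ F _ _ hp hF hIm hs => BKT.parityA BKT.AllZ.pzf p F hp hF hIm hs

end Pool.Agent.Results.MP_7c08ba_nt.ParityResidual
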