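import Mathlib
import Pool.Agent.Lib.MP_7c08ba_nt.BK.OneAllTr
import Pool.Agent.Lib.MP_7c08ba_nt.RZ.AllQ

set_option autoImplicit false

/-!
The conjecture of Bloch and Kato in rank one for `π = BC_F(f) ⊗ ψ`, `F` an imaginary quadratic
field, `f` an eigenform of level one, `ψ` an unramified Hecke character of `F`.
-/

namespace Pool.Agent.Results.MP_7c08ba_nt.RankOne

open BKS

theorem result :
    (∀ D : ℕ, IsFund D → 4 < D → OneLarge D) ∧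
    (∀ (p D : ℕ) [Fact p.Prime], Fam p D → Characters p D) ∧
    (∀ ε : ℝ, 0 < ε → ∃ X₀ : ℕ, ∀ X : ℕ, X₀ ≤ X →
      (1 / 2 - ε) * ({D : ℕ | D ≤ X ∧ IsFund D ∧ D % 3 = 2}.ncard : ℝ) ≤
        ({D : ℕ | D ≤ X ∧ Fam 3 D}.ncard : ℝ)) ∧
    OneSeven :=
  ⟨fun _ hD h4 => CV.oneLarge Pool.Agent.Lib.MP_7c08ba_nt.RZ.aMainQ hD h4,
    fun _ _ _ h => CV.characters h, CV.density, CV.oneSeven⟩

end Pool.Agent.Results.MP_7c08ba_nt.RankOne
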